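import Pool.Agent.helper67.TPD.Spec

/-!
# Project tpd (MP_ebc808_nt), module QUA: double counting of quadruples
-/

set_option autoImplicit false

open Finset

noncomputable section

namespace Pool.Agent.TPD

open Finset Pool.Agent.EP Pool.Agent.PQ

theorem QUA_one (Q : Finset (ℕ × ℕ × ℕ × ℕ)) (E : Finset (ℕ × ℕ)) (U V : Finset ℕ) (N : ℕ)
    (hU : #U = N) (hV : #V = N) (g : ℕ × ℕ × ℕ × ℕ → (ℕ × ℕ) × ℕ × ℕ)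
    (hg : Function.Injective g) (hmem : ∀ q ∈ Q, (g q).1 ∈ E ∧ (g q).2.1 ∈ U ∧ (g q).2.2 ∈ V) :
    #Q ≤ #E * N ^ 2 := by
  have h1 : #Q ≤ #(E ×ˢ (U ×ˢ V)) := by
    apply Finset.card_le_card_of_injOn g
    · intro q hq
      obtain ⟨h1, h2, h3⟩ := hmem q hq
      exact Finset.mem_coe.2 (Finset.mem_product.2 ⟨h1, Finset.mem_product.2 ⟨h2, h3⟩⟩)
    · exact hg.injOn
  rw [Finset.card_product, Finset.card_product, hU, hV] at h1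
  rw [pow_two]
  exact h1

theorem QUA : QUA_stmt := by
  classical
  intro A₁ A₂ C₁ C₂ E₁₁ E₁₂ E₂₁ E₂₂ N h1 h2 h3 h4 h
  obtain ⟨A₁', hA₁, cA₁⟩ := Finset.exists_subset_card_eq h1
  obtain ⟨A₂', hA₂, cA₂⟩ := Finset.exists_subset_card_eq h2
  obtain ⟨C₁', hC₁, cC₁⟩ := Finset.exists_subset_card_eq h3
  obtain ⟨C₂', hC₂, cC₂⟩ := Finset.exists_subset_card_eq h4
  obtain ⟨Q, hQ⟩ : ∃ Q : Finset (ℕ × ℕ × ℕ × ℕ), Q = A₁' ×ˢ (A₂' ×ˢ (C₁' ×ˢ C₂')) := ⟨_, rfl⟩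
  have hcQ : #Q = N ^ 4 := by
    rw [hQ, Finset.card_product, Finset.card_product, Finset.card_product, cA₁, cA₂, cC₁, cC₂]
    ring
  have hmQ : ∀ q ∈ Q, q.1 ∈ A₁' ∧ q.2.1 ∈ A₂' ∧ q.2.2.1 ∈ C₁' ∧ q.2.2.2 ∈ C₂' := by
    intro q hq
    rw [hQ, Finset.mem_product, Finset.mem_product, Finset.mem_product] at hq
    exact hq
  have hsub : Q ⊆ Q.filter (fun q => (q.1, q.2.2.1) ∈ E₁₁) ∪
      (Q.filter (fun q => (q.1, q.2.2.2) ∈ E₁₂) ∪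
      (Q.filter (fun q => (q.2.1, q.2.2.1) ∈ E₂₁) ∪
      Q.filter (fun q => (q.2.1, q.2.2.2) ∈ E₂₂))) := by
    intro q hq
    obtain ⟨m1, m2, m3, m4⟩ := hmQ q hq
    simp only [Finset.mem_union, Finset.mem_filter]
    rcases h q.1 (hA₁ m1) q.2.1 (hA₂ m2) q.2.2.1 (hC₁ m3) q.2.2.2 (hC₂ m4) with h5 | h5 | h5 | h5
    · exact Or.inl ⟨hq, h5⟩
    · exact Or.inr (Or.inl ⟨hq, h5⟩)
    · exact Or.inr (Or.inr (Or.inl ⟨hq, h5⟩))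
    · exact Or.inr (Or.inr (Or.inr ⟨hq, h5⟩))
  have e1 : #(Q.filter (fun q => (q.1, q.2.2.1) ∈ E₁₁)) ≤ #E₁₁ * N ^ 2 := by
    apply QUA_one _ E₁₁ A₂' C₂' N cA₂ cC₂ (fun q => ((q.1, q.2.2.1), q.2.1, q.2.2.2))
    · rintro ⟨a, b, c, d⟩ ⟨a', b', c', d'⟩ hh
      simp only [Prod.mk.injEq] at hh ⊢
      tauto
    · intro q hq
      obtain ⟨hq1, hq2⟩ := Finset.mem_filter.1 hq
      obtain ⟨m1, m2, m3, m4⟩ := hmQ q hq1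
      exact ⟨hq2, m2, m4⟩
  have e2 : #(Q.filter (fun q => (q.1, q.2.2.2) ∈ E₁₂)) ≤ #E₁₂ * N ^ 2 := by
    apply QUA_one _ E₁₂ A₂' C₁' N cA₂ cC₁ (fun q => ((q.1, q.2.2.2), q.2.1, q.2.2.1))
    · rintro ⟨a, b, c, d⟩ ⟨a', b', c', d'⟩ hh
      simp only [Prod.mk.injEq] at hh ⊢
      tauto
    · intro q hq
      obtain ⟨hq1, hq2⟩ := Finset.mem_filter.1 hq
      obtain ⟨m1, m2, m3, m4⟩ := hmQ q hq1
      exact ⟨hq2, m2, m3⟩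
  have e3 : #(Q.filter (fun q => (q.2.1, q.2.2.1) ∈ E₂₁)) ≤ #E₂₁ * N ^ 2 := by
    apply QUA_one _ E₂₁ A₁' C₂' N cA₁ cC₂ (fun q => ((q.2.1, q.2.2.1), q.1, q.2.2.2))
    · rintro ⟨a, b, c, d⟩ ⟨a', b', c', d'⟩ hh
      simp only [Prod.mk.injEq] at hh ⊢
      tauto
    · intro q hq
      obtain ⟨hq1, hq2⟩ := Finset.mem_filter.1 hq
      obtain ⟨m1, m2, m3, m4⟩ := hmQ q hq1
      exact ⟨hq2, m1, m4⟩
  have e4 : #(Q.filter (fun q => (q.2.1, q.2.2.2) ∈ E₂₂)) ≤ #E₂₂ * N ^ 2 := by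
    apply QUA_one _ E₂₂ A₁' C₁' N cA₁ cC₁ (fun q => ((q.2.1, q.2.2.2), q.1, q.2.2.1))
    · rintro ⟨a, b, c, d⟩ ⟨a', b', c', d'⟩ hh
      simp only [Prod.mk.injEq] at hh ⊢
      tauto
    · intro q hq
      obtain ⟨hq1, hq2⟩ := Finset.mem_filter.1 hq
      obtain ⟨m1, m2, m3, m4⟩ := hmQ q hq1
      exact ⟨hq2, m1, m3⟩
  have e5 : N ^ 4 ≤ N ^ 2 * (#E₁₁ + #E₁₂ + #E₂₁ + #E₂₂) := by
    have h6 := Finset.card_le_card hsub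
    rw [hcQ] at h6
    have h7 := Finset.card_union_le (Q.filter (fun q => (q.1, q.2.2.1) ∈ E₁₁))
      (Q.filter (fun q => (q.1, q.2.2.2) ∈ E₁₂) ∪
      (Q.filter (fun q => (q.2.1, q.2.2.1) ∈ E₂₁) ∪
      Q.filter (fun q => (q.2.1, q.2.2.2) ∈ E₂₂)))
    have h8 := Finset.card_union_le (Q.filter (fun q => (q.1, q.2.2.2) ∈ E₁₂))
      (Q.filter (fun q => (q.2.1, q.2.2.1) ∈ E₂₁) ∪
      Q.filter (fun q => (q.2.1, q.2.2.2) ∈ E₂₂))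
    have h9 := Finset.card_union_le (Q.filter (fun q => (q.2.1, q.2.2.1) ∈ E₂₁))
      (Q.filter (fun q => (q.2.1, q.2.2.2) ∈ E₂₂))
    have h10 : N ^ 2 * (#E₁₁ + #E₁₂ + #E₂₁ + #E₂₂) =
        #E₁₁ * N ^ 2 + #E₁₂ * N ^ 2 + #E₂₁ * N ^ 2 + #E₂₂ * N ^ 2 := by ring
    rw [h10]
    omega
  rcases Nat.eq_zero_or_pos N with h0 | h0
  · rw [h0]
    simp
  · have h11 : N ^ 4 = N ^ 2 * N ^ 2 := by ring
    rw [h11] at e5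
    exact Nat.le_of_mul_le_mul_left e5 (pow_pos h0 2)

end Pool.Agent.TPD
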